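import Pool.Agent.Helper61.QS.GoalsC

/-!
# Project QS, packet C-CD
-/

set_option autoImplicit false

open Set NormedSpace

namespace Pool.Agent.Helper12.QS

open Pool.Agent.Helper61.QS

theorem exp_add_comm {k : ℕ} {x y : En k} (h : Commute x y) : exp (x + y) = exp x * exp y := by
  have : NormedAlgebra ℚ (En k) := NormedAlgebra.restrictScalars ℚ ℝ (En k)
  exact NormedSpace.exp_add_of_commute h

theorem exp_zero' {k : ℕ} : exp (0 : En k) = 1 := NormedSpace.exp_zero

theorem exp_mul_exp_neg {k : ℕ} (x : En k) : exp x * exp (-x) = 1 := by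
  rw [← exp_add_comm (Commute.refl x).neg_right, add_neg_cancel, exp_zero']

theorem exp_neg_mul_exp {k : ℕ} (x : En k) : exp (-x) * exp x = 1 := by
  rw [← exp_add_comm (Commute.refl x).neg_left, neg_add_cancel, exp_zero']

/-- the derivative of a path of orthogonal operators at a point where it is `1` is skew -/
theorem skew_deriv {k : ℕ} (h : ℝ → En k) (X : En k) (hu : ∀ α, h α ∈ unitary (En k))
    (h0 : h 0 = 1) (hd : HasDerivAt h X 0) : star X = -X := by
  have h1 : HasDerivAt (fun α => star (h α) * h α) (star X * h 0 + star (h 0) * X) 0 :=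
    hd.star.mul hd
  have h2 : (fun α => star (h α) * h α) = fun _ => (1 : En k) := by
    funext α
    exact (Unitary.mem_iff.1 (hu α)).1
  rw [h2] at h1
  have h3 := h1.unique (hasDerivAt_const (0 : ℝ) (1 : En k))
  rw [h0, star_one, mul_one, one_mul] at h3
  exact eq_neg_of_add_eq_zero_left h3

theorem goalCD : G_CD := by
  intro k m hN hS Ψ hm L
  have hm' : (m : ℝ) ≠ 0 := by exact_mod_cast hm
  set XN : En k := deriv hN 0 with hXN
  set XS : En k := deriv hS 0 with hXS
  have dN : HasDerivAt hN XN 0 := L.dN.hasDerivAt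
  have dS : HasDerivAt hS XS 0 := L.dS.hasDerivAt
  have kN : star XN = -XN := skew_deriv hN XN L.uN L.N0 dN
  have kS : star XS = -XS := skew_deriv hS XS L.uS L.S0 dS
  set A : En k := (1 / (m : ℝ)) • XS with hA
  set B : En k := (1 / (m : ℝ)) • XN with hB
  -- the values of `Ψ`
  have hval : ∀ β γ : ℝ, Ψ γ = hS ((β - γ) / m) * Ψ β * star (hN ((β - γ) / m)) := by
    intro β γ
    have h1 := L.rel ((β - γ) / m) β
    have h2 : β - m * ((β - γ) / m) = γ := by field_simp; ring
    rw [h2] at h1
    rw [← h1, mul_assoc, (Unitary.mem_iff.1 (L.uN _)).2, mul_one]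
  -- the derivative of `Ψ`
  have hder : ∀ β : ℝ, HasDerivAt Ψ (-(A * Ψ β) + Ψ β * B) β := by
    intro β
    have hlin : HasDerivAt (fun γ : ℝ => (β - γ) / m) (-1 / (m : ℝ)) β :=
      ((hasDerivAt_id β).const_sub β).div_const (m : ℝ)
    have e0 : (β - β) / (m : ℝ) = 0 := by simp
    have dS' : HasDerivAt hS XS ((β - β) / (m : ℝ)) := by rw [e0]; exact dS
    have dN' : HasDerivAt (fun x => star (hN x)) (star XN) ((β - β) / (m : ℝ)) := by
      rw [e0]; exact dN.star
    have h1' := HasDerivAt.scomp β dS' hlin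
    have h1 : HasDerivAt (fun γ : ℝ => hS ((β - γ) / m)) ((-1 / (m : ℝ)) • XS) β := h1'
    have h2' := HasDerivAt.scomp β dN' hlin
    have h2 : HasDerivAt (fun γ : ℝ => star (hN ((β - γ) / m))) ((-1 / (m : ℝ)) • star XN) β := h2'
    have h3 := (h1.mul_const (Ψ β)).mul h2
    have h5 : HasDerivAt Ψ (((-1 / (m : ℝ)) • XS) * Ψ β * star (hN ((β - β) / m)) +
        hS ((β - β) / m) * Ψ β * ((-1 / (m : ℝ)) • star XN)) β :=
      h3.congr_of_eventuallyEq (Filter.Eventually.of_forall fun γ => hval β γ)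
    rw [e0, L.N0, L.S0, star_one, mul_one, one_mul, kN] at h5
    refine h5.congr_deriv ?_
    rw [hA, hB]
    simp only [smul_mul_assoc, mul_smul_comm, mul_neg, smul_neg]
    rw [neg_div, neg_smul, neg_smul]
    simp
  -- the constant
  set Q : ℝ → En k := fun β => exp (β • A) * Ψ β * exp (β • (-B)) with hQ
  have hQd : ∀ β, HasDerivAt Q 0 β := by
    intro β
    have e1 : HasDerivAt (fun u : ℝ => exp (u • A)) (exp (β • A) * A) β :=
      hasDerivAt_exp_smul_const A β
    have e2 : HasDerivAt (fun u : ℝ => exp (u • (-B))) ((-B) * exp (β • (-B))) β :=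
      hasDerivAt_exp_smul_const' (-B) β
    have h := (e1.mul (hder β)).mul e2
    have h' : HasDerivAt Q ((exp (β • A) * A * Ψ β + exp (β • A) * (-(A * Ψ β) + Ψ β * B)) *
        exp (β • (-B)) + exp (β • A) * Ψ β * (-B * exp (β • (-B)))) β := h
    refine h'.congr_deriv ?_
    noncomm_ring
  have hQc : ∀ β, Q β = 1 := by
    intro β
    have h1 := is_const_of_deriv_eq_zero (fun β => (hQd β).differentiableAt)
      (fun β => (hQd β).deriv) β 0
    rw [h1, hQ]
    simp [L.Ψ0]
  have hΨ : ∀ β : ℝ, Ψ β = exp (-(β • A)) * exp (β • B) := by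
    intro β
    have h1 := hQc β
    simp only [hQ, smul_neg] at h1
    calc Ψ β = (exp (-(β • A)) * exp (β • A)) * Ψ β * (exp (-(β • B)) * exp (β • B)) := by
          rw [exp_neg_mul_exp, exp_neg_mul_exp, one_mul, mul_one]
      _ = exp (-(β • A)) * (exp (β • A) * Ψ β * exp (-(β • B))) * exp (β • B) := by
          noncomm_ring
      _ = _ := by rw [h1, mul_one]
  have hshift : ∀ α β : ℝ, Ψ (β - m * α) = exp (α • XS) * Ψ β * exp (-(α • XN)) := by
    intro α β
    rw [hΨ, hΨ β]
    have e1 : -((β - m * α) • A) = α • XS + -(β • A) := by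
      rw [hA, smul_smul, smul_smul, ← sub_eq_add_neg, ← sub_smul, ← neg_smul]
      congr 1
      field_simp
      ring
    have e2 : (β - m * α) • B = β • B + -(α • XN) := by
      rw [hB, smul_smul, smul_smul, ← sub_eq_add_neg, ← sub_smul]
      congr 1
      field_simp
    have c1 : Commute (α • XS) (-(β • A)) := by
      rw [hA]
      exact (((Commute.refl XS).smul_right _).smul_right _).neg_right.smul_left _
    have c2 : Commute (β • B) (-(α • XN)) := by
      rw [hB]
      exact ((((Commute.refl XN).smul_left _).smul_left _).smul_right _).neg_right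
    rw [e1, e2, exp_add_comm c1, exp_add_comm c2]
    noncomm_ring
  have hrel : ∀ α β : ℝ,
      exp (α • XS) * Ψ β * exp (-(α • XN)) * hN α = hS α * Ψ β := by
    intro α β
    rw [← hshift, L.rel]
  have hK : ∀ α : ℝ, exp (-(α • XN)) * hN α = exp (-(α • XS)) * hS α := by
    intro α
    have h1 := hrel α 0
    rw [L.Ψ0, mul_one, mul_one] at h1
    rw [← h1]
    calc exp (-(α • XN)) * hN α = (exp (-(α • XS)) * exp (α • XS)) * exp (-(α • XN)) * hN α := by
          rw [exp_neg_mul_exp, one_mul]
      _ = _ := by noncomm_ring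
  refine ⟨XN, XS, kN, kS, ?_, ?_, ?_⟩
  · intro β
    rw [hΨ β, hA, hB]
    congr 2
    · rw [smul_smul, ← neg_smul]
      congr 1
      ring
    · rw [smul_smul]
      congr 1
      ring
  · intro α
    rw [neg_smul, neg_smul]
    exact hK α
  · intro α β
    rw [neg_smul]
    have h1 := hrel α β
    calc Ψ β * (exp (-(α • XN)) * hN α)
        = (exp (-(α • XS)) * exp (α • XS)) * Ψ β * exp (-(α • XN)) * hN α := by
          rw [exp_neg_mul_exp, one_mul]; noncomm_ring
      _ = exp (-(α • XS)) * (exp (α • XS) * Ψ β * exp (-(α • XN)) * hN α) := by noncomm_ring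
      _ = exp (-(α • XS)) * hS α * Ψ β := by rw [h1]; noncomm_ring
      _ = exp (-(α • XN)) * hN α * Ψ β := by rw [hK α]

end Pool.Agent.Helper12.QS
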