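import Pool.Agent.Helper61.QS.GoalsC

/-!
# Project QS, packet C-CPA
-/

set_option autoImplicit false

open Set

namespace Pool.Agent.Helper12.QS

open Pool.Agent.Helper61.QS

theorem goalCPA (hHEQ : G_HEQ) (hPGA : G_PGA) (hPGB : G_PGB) : G_CPA := by
  intro k S seg hseg p hp hp0
  obtain ⟨-, -, htrans, hclose⟩ := hHEQ k S
  -- step 1: the first broken path
  have huc := isCompact_Icc.uniformContinuousOn_of_continuous hp.1
  rw [Metric.uniformContinuousOn_iff_le] at huc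
  obtain ⟨δ, hδ, hδ'⟩ := huc (1 / 4) (by norm_num)
  obtain ⟨n, hn⟩ := exists_nat_one_div_lt hδ
  obtain ⟨hKK, hnear⟩ := hPGB k S seg hseg p hp hp0 (n + 1) (by omega) (by
    intro t ht t' ht' htt
    have h1 := hδ' t ht t' ht' (by
      rw [Real.dist_eq]
      refine htt.trans ?_
      push_cast
      exact hn.le)
    rwa [dist_eq_norm] at h1)
  set a₀ : Fin (n + 1) → En k :=
    (fun i : Fin (n + 1) => star (p (i / ((n + 1 : ℕ) : ℝ))) * p ((i + 1) / ((n + 1 : ℕ) : ℝ)))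
    with ha₀
  obtain ⟨-, hA2, -⟩ := hPGA k S seg hseg (n + 1) (p 1)
  obtain ⟨hq, hq0, hq1, L₀, hL₀⟩ := hA2 a₀ hKK
  set q : ℝ → En k := poly seg a₀ with hqdef
  have hpq : Htp S p q := hclose p q hp hq (by rw [hp0, hq0]) hq1.symm
    (fun t ht => by rw [norm_sub_rev]; exact hnear t ht)
  -- step 2
  set L : ℝ := max L₀ 0 with hLdef
  have hL0 : 0 ≤ L := le_max_right _ _
  have hL : ∀ t ∈ Icc (0 : ℝ) 1, ∀ t' ∈ Icc (0 : ℝ) 1, ‖q t - q t'‖ ≤ L * |t - t'| :=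
    fun t ht t' ht' => (hL₀ t ht t' ht').trans
      (mul_le_mul_of_nonneg_right (le_max_left _ _) (abs_nonneg _))
  set N : ℕ := ⌈4 * L + k * L ^ 2⌉₊ + 1 with hN
  have hNpos : 0 < N := by omega
  have hNr : (0 : ℝ) < N := by exact_mod_cast hNpos
  have hN1 : 4 * L + k * L ^ 2 < N := by
    rw [hN]
    push_cast
    exact lt_of_le_of_lt (Nat.le_ceil _) (by linarith)
  have hkL : 0 ≤ (k : ℝ) * L ^ 2 := by positivity
  obtain ⟨hKK', hnear'⟩ := hPGB k S seg hseg q hq hq0 N hNpos (by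
    intro t ht t' ht' htt
    refine (hL t ht t' ht').trans ?_
    calc L * |t - t'| ≤ L * (1 / N) := mul_le_mul_of_nonneg_left htt hL0
      _ ≤ 1 / 4 := by
        rw [mul_one_div, div_le_iff₀ hNr]
        linarith)
  set a : Fin N → En k := (fun i : Fin N => star (q (i / N)) * q ((i + 1) / N)) with ha
  obtain ⟨-, hB2, -⟩ := hPGA k S seg hseg N (q 1)
  obtain ⟨hr, hr0, hr1, -⟩ := hB2 a hKK'
  have hqr : Htp S q (poly seg a) := hclose q (poly seg a) hq hr (by rw [hq0, hr0]) hr1.symm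
    (fun t ht => by rw [norm_sub_rev]; exact hnear' t ht)
  refine ⟨N, hNpos, a, ?_, htrans _ _ _ hpq hqr, ?_⟩
  · rw [← hq1]; exact hKK'
  -- the energy
  have hnorm : ∀ i : Fin N, ‖a i - 1‖ ≤ L / N := by
    intro i
    have hi0 : (0 : ℝ) ≤ (i : ℕ) := Nat.cast_nonneg _
    have hiN : ((i : ℕ) : ℝ) + 1 ≤ N := by exact_mod_cast i.2
    have hm1 : (((i : ℕ) : ℝ) / N) ∈ Icc (0 : ℝ) 1 :=
      ⟨by positivity, by rw [div_le_one hNr]; linarith⟩
    have hm2 : ((((i : ℕ) : ℝ) + 1) / N) ∈ Icc (0 : ℝ) 1 :=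
      ⟨by positivity, by rw [div_le_one hNr]; exact hiN⟩
    have hu := hq.2 _ hm1
    have h1 : a i - 1 = star (q ((i : ℕ) / N)) * (q (((i : ℕ) + 1) / N) - q ((i : ℕ) / N)) := by
      rw [mul_sub, UC.star_mul hu]
    rw [h1]
    have h2 : ‖star (q (((i : ℕ) : ℝ) / N))‖ ≤ 1 := UC.norm_le (UC.star_mem hu)
    have h3 := hL _ hm2 _ hm1
    have h4 : |(((i : ℕ) : ℝ) + 1) / N - ((i : ℕ) : ℝ) / N| = 1 / N := by
      rw [← sub_div, add_sub_cancel_left, abs_of_nonneg (by positivity)]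
    rw [h4] at h3
    calc ‖star (q (((i : ℕ) : ℝ) / N)) * (q ((((i : ℕ) : ℝ) + 1) / N) - q (((i : ℕ) : ℝ) / N))‖
        ≤ ‖star (q (((i : ℕ) : ℝ) / N))‖ *
            ‖q ((((i : ℕ) : ℝ) + 1) / N) - q (((i : ℕ) : ℝ) / N)‖ := norm_mul_le _ _
      _ ≤ 1 * (L * (1 / N)) := mul_le_mul h2 h3 (norm_nonneg _) zero_le_one
      _ = L / N := by ring
  have hterm : ∀ i : Fin N, 2 * ((k : ℝ) - tr (a i)) ≤ k * (L / N) ^ 2 := by
    intro i
    rw [← tr_unitary (a i) (hKK'.1 i).1.1]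
    refine (tr_le_norm_sq (a i - 1)).trans ?_
    refine mul_le_mul_of_nonneg_left ?_ (Nat.cast_nonneg k)
    exact pow_le_pow_left₀ (norm_nonneg _) (hnorm i) 2
  rw [Finset.mul_sum]
  calc ∑ i, 2 * ((k : ℝ) - tr (a i)) ≤ ∑ _i : Fin N, (k : ℝ) * (L / N) ^ 2 :=
        Finset.sum_le_sum fun i _ => hterm i
    _ = k * L ^ 2 / N := by
        rw [Finset.sum_const, Finset.card_univ, Fintype.card_fin, nsmul_eq_mul]
        field_simp
    _ < 1 := by
        rw [div_lt_one hNr]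
        linarith

end Pool.Agent.Helper12.QS
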